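import Pool.Agent.Helper40_ZOL.Kit

/-!
# ZOL, rows FMUL and FCH: products by alternating sums, crossing changes in the factor
-/

namespace Pool.Agent.ZOL.H24

open Pool.Agent.ZOL Finset

/-- the labels of the first factor -/
def al (n : ℕ) : ℕ := 2 * n

/-- the labels of the second factor -/
def be (n : ℕ) : ℕ := 2 * n + 1

theorem al_inj : Function.Injective al := fun x y h => by
  unfold al at h
  omega

theorem be_inj : Function.Injective be := fun x y h => by
  unfold be at h
  omega

theorem mul_eq (w E : Word) : mul w E = relab al w ++ relab be E := rfl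

theorem labels_mul (w E : Word) : labels (mul w E) = (labels w).image al ∪ (labels E).image be := by
  rw [mul_eq, labels_append, labels_relab, labels_relab]

theorem disj_al_be (A B : Finset ℕ) : Disjoint (A.image al) (B.image be) := by
  rw [Finset.disjoint_left]
  intro x hx hy
  obtain ⟨a, _, rfl⟩ := Finset.mem_image.1 hx
  obtain ⟨b, _, hb⟩ := Finset.mem_image.1 hy
  unfold al be at hb
  omega

theorem relab_flip (σ : ℕ → ℕ) (T U : Finset ℕ) (w : Word)
    (h : ∀ n, σ n ∈ U ↔ n ∈ T) : relab σ (flip T w) = flip U (relab σ w) := by
  unfold relab flip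
  rw [List.map_map, List.map_map]
  apply List.map_congr_left
  intro l _
  by_cases h1 : l.1 ∈ T
  · have h2 : σ l.1 ∈ U := (h _).2 h1
    simp only [Function.comp_apply, h1, h2, if_true]
  · have h2 : σ l.1 ∉ U := fun h3 => h1 ((h _).1 h3)
    simp only [Function.comp_apply, h1, h2, if_false]

theorem mul_flip (T S : Finset ℕ) (w E : Word) :
    mul (flip T w) (flip S E) = flip (T.image al ∪ S.image be) (mul w E) := by
  rw [mul_eq, mul_eq, flip_append]
  rw [relab_flip al T (T.image al ∪ S.image be) w, relab_flip be S (T.image al ∪ S.image be) E]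
  · intro n
    constructor
    · intro h
      rcases Finset.mem_union.1 h with h | h
      · obtain ⟨a, _, ha⟩ := Finset.mem_image.1 h
        exfalso
        unfold al be at ha
        omega
      · obtain ⟨a, ha, hb⟩ := Finset.mem_image.1 h
        exact be_inj hb ▸ ha
    · intro h
      exact Finset.mem_union_right _ (Finset.mem_image_of_mem _ h)
  · intro n
    constructor
    · intro h
      rcases Finset.mem_union.1 h with h | h
      · obtain ⟨a, ha, hb⟩ := Finset.mem_image.1 h
        exact al_inj hb ▸ ha
      · obtain ⟨a, _, ha⟩ := Finset.mem_image.1 h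
        exfalso
        unfold al be at ha
        omega
    · intro h
      exact Finset.mem_union_left _ (Finset.mem_image_of_mem _ h)

theorem mul_flip' (T S : Finset ℕ) (w E : Word) :
    mul (flip T w) (flip S E) = flip (T.image al) (flip (S.image be) (mul w E)) := by
  rw [mul_flip, flip_union (disj_al_be T S)]

theorem alt_insert {c : ℕ} {C : Finset ℕ} (hc : c ∉ C) (w : Word) :
    alt (insert c C) w = alt C w - alt C (flip {c} w) := by
  unfold alt
  rw [Finset.sum_powerset_insert hc, sub_eq_add_neg, ← Finset.sum_neg_distrib]
  congr 1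
  apply Finset.sum_congr rfl
  intro T hT
  have hcT : c ∉ T := fun h => hc (Finset.mem_powerset.1 hT h)
  have e1 : flip (insert c T) w = flip T (flip {c} w) := by
    rw [← flip_union (Finset.disjoint_singleton_right.2 hcT)]
    congr 1
    rw [Finset.insert_eq, Finset.union_comm]
  rw [Finset.card_insert_of_notMem hcT, e1, pow_succ, mul_neg_one, neg_smul]

theorem alt_empty (w : Word) : alt ∅ w = kn w := by
  unfold alt
  rw [Finset.powerset_empty, Finset.sum_singleton, Finset.card_empty, pow_zero, one_smul,
    flip_empty]

theorem sum_powerset_image {τ : ℕ → ℕ} (hτ : Function.Injective τ) (B : Finset ℕ) :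
    ∀ g : Finset ℕ → ZK, ∑ S ∈ (B.image τ).powerset, g S = ∑ S ∈ B.powerset, g (S.image τ) := by
  induction B using Finset.induction_on with
  | empty =>
    intro g
    rw [Finset.image_empty, Finset.powerset_empty, Finset.sum_singleton, Finset.sum_singleton,
      Finset.image_empty]
  | insert b B hb ih =>
    intro g
    have hb' : τ b ∉ B.image τ := by
      intro h
      obtain ⟨x, hx, hxe⟩ := Finset.mem_image.1 h
      exact hb (hτ hxe ▸ hx)
    rw [Finset.image_insert, Finset.sum_powerset_insert hb', Finset.sum_powerset_insert hb,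
      ih g, ih (fun S => g (insert (τ b) S))]
    congr 1
    apply Finset.sum_congr rfl
    intro S _
    rw [Finset.image_insert]

theorem alt_union {A : Finset ℕ} (B : Finset ℕ) :
    Disjoint A B → ∀ W : Word,
      alt (A ∪ B) W = ∑ S ∈ B.powerset, (-1 : ℤ) ^ S.card • alt A (flip S W) := by
  induction B using Finset.induction_on with
  | empty =>
    intro _ W
    rw [Finset.union_empty, Finset.powerset_empty, Finset.sum_singleton, Finset.card_empty,
      pow_zero, one_smul, flip_empty]
  | insert b B hb ih =>
    intro hd W
    rw [Finset.disjoint_insert_right] at hd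
    have hb' : b ∉ A ∪ B := fun h => by
      rcases Finset.mem_union.1 h with h | h
      · exact hd.1 h
      · exact hb h
    have e0 : A ∪ insert b B = insert b (A ∪ B) := Finset.union_insert _ _ _
    rw [e0, alt_insert hb', ih hd.2 W, ih hd.2 (flip {b} W), Finset.sum_powerset_insert hb,
      sub_eq_add_neg, ← Finset.sum_neg_distrib]
    congr 1
    apply Finset.sum_congr rfl
    intro S hS
    have hbS : b ∉ S := fun h => hb (Finset.mem_powerset.1 hS h)
    have e1 : flip (insert b S) W = flip S (flip {b} W) := by
      rw [← flip_union (Finset.disjoint_singleton_right.2 hbS)]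
      congr 1
      rw [Finset.insert_eq, Finset.union_comm]
    rw [Finset.card_insert_of_notMem hbS, e1, pow_succ, mul_neg_one, neg_smul]

theorem map_alt (hg : GFlipStmt) (E : Word) (S : Finset ℕ) (f : ZK →+ ZK)
    (hf : ∀ w, IsGauss w → Planar (shadow w) → f (kn w) = kn (mul w (flip S E)))
    (w : Word) (hw : IsGauss w) (hpw : Planar (shadow w)) (C : Finset ℕ) :
    f (alt C w) = alt (C.image al) (flip (S.image be) (mul w E)) := by
  have e1 : alt (C.image al) (flip (S.image be) (mul w E)) =
      ∑ T ∈ C.powerset, (-1 : ℤ) ^ (T.image al).card •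
        kn (flip (T.image al) (flip (S.image be) (mul w E))) :=
    sum_powerset_image al_inj C
      (fun T => (-1 : ℤ) ^ T.card • kn (flip T (flip (S.image be) (mul w E))))
  rw [e1]
  unfold alt
  rw [map_sum]
  apply Finset.sum_congr rfl
  intro T _
  rw [map_zsmul, hf (flip T w) (hg w T hw) (by rw [shadow_flip]; exact hpw), mul_flip',
    Finset.card_image_of_injective T al_inj]

theorem alt_mem_F {W : Word} (hW : IsGauss W) (hp : Planar (shadow W)) {C : Finset ℕ}
    (hC : C ⊆ labels W) {n : ℕ} (hn : C.card = n) : alt C W ∈ F n :=
  AddSubgroup.subset_closure ⟨W, C, hW, hp, hC, hn, rfl⟩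

/-- FMUL -/
theorem fmul (hg : GFlipStmt) (hm : MGauStmt) (hp : MPlaStmt) : FMulStmt := by
  intro E C' M hE hPE hC' hM d x hx
  unfold F at hx
  induction hx using AddSubgroup.closure_induction with
  | mem x hx =>
    obtain ⟨w, C, hw, hpw, hC, hcard, rfl⟩ := hx
    have key : ∑ S ∈ C'.powerset, (-1 : ℤ) ^ S.card • M S (alt C w) =
        alt (C.image al ∪ C'.image be) (mul w E) := by
      rw [alt_union _ (disj_al_be C C')]
      rw [sum_powerset_image be_inj C'
        (fun S => (-1 : ℤ) ^ S.card • alt (C.image al) (flip S (mul w E)))]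
      apply Finset.sum_congr rfl
      intro S hS
      rw [map_alt hg E S (M S) (hM S hS) w hw hpw C, Finset.card_image_of_injective S be_inj]
    rw [key]
    apply alt_mem_F (hm w E hw hE) (hp w E hw hE hpw hPE)
    · rw [labels_mul]
      exact Finset.union_subset_union (Finset.image_subset_image hC)
        (Finset.image_subset_image hC')
    · rw [Finset.card_union_of_disjoint (disj_al_be C C'),
        Finset.card_image_of_injective C al_inj, Finset.card_image_of_injective C' be_inj, hcard]
  | zero =>
    have : ∑ S ∈ C'.powerset, (-1 : ℤ) ^ S.card • M S (0 : ZK) = 0 := by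
      apply Finset.sum_eq_zero
      intro S _
      rw [map_zero, smul_zero]
    rw [this]
    exact AddSubgroup.zero_mem _
  | add x y _ _ ihx ihy =>
    have : ∑ S ∈ C'.powerset, (-1 : ℤ) ^ S.card • M S (x + y) =
        ∑ S ∈ C'.powerset, (-1 : ℤ) ^ S.card • M S x +
          ∑ S ∈ C'.powerset, (-1 : ℤ) ^ S.card • M S y := by
      rw [← Finset.sum_add_distrib]
      apply Finset.sum_congr rfl
      intro S _
      rw [map_add, smul_add]
    rw [this]
    exact AddSubgroup.add_mem _ ihx ihy
  | neg x _ ihx =>
    have : ∑ S ∈ C'.powerset, (-1 : ℤ) ^ S.card • M S (-x) =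
        -∑ S ∈ C'.powerset, (-1 : ℤ) ^ S.card • M S x := by
      rw [← Finset.sum_neg_distrib]
      apply Finset.sum_congr rfl
      intro S _
      rw [map_neg, smul_neg]
    rw [this]
    exact AddSubgroup.neg_mem _ ihx

theorem change_mem (hg : GFlipStmt) (W : Word) (C : Finset ℕ) (hC : C ⊆ labels W)
    (S : Finset ℕ) : Disjoint C S → S ⊆ labels W → IsGauss W → Planar (shadow W) →
      alt C W - alt C (flip S W) ∈ F (C.card + 1) := by
  induction S using Finset.induction_on with
  | empty =>
    intro _ _ _ _
    rw [flip_empty, sub_self]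
    exact AddSubgroup.zero_mem _
  | insert a S ha ih =>
    intro hd hS hW hp
    rw [Finset.disjoint_insert_right] at hd
    have h1 := ih hd.2 (fun x hx => hS (Finset.mem_insert_of_mem hx)) hW hp
    have e1 : flip (insert a S) W = flip {a} (flip S W) := by
      rw [← flip_union (Finset.disjoint_singleton_left.2 ha), ← Finset.insert_eq]
    have e2 : alt (insert a C) (flip S W) = alt C (flip S W) - alt C (flip (insert a S) W) := by
      rw [alt_insert hd.1, e1]
    have h2 : alt (insert a C) (flip S W) ∈ F (C.card + 1) := by
      apply alt_mem_F (hg W S hW) (by rw [shadow_flip]; exact hp)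
      · rw [labels_flip]
        intro x hx
        rcases Finset.mem_insert.1 hx with rfl | hx
        · exact hS (Finset.mem_insert_self _ _)
        · exact hC hx
      · exact Finset.card_insert_of_notMem hd.1
    have e3 : alt C W - alt C (flip (insert a S) W) =
        (alt C W - alt C (flip S W)) + alt (insert a C) (flip S W) := by
      rw [e2]
      abel
    rw [e3]
    exact AddSubgroup.add_mem _ h1 h2

/-- FCH -/
theorem fch (hg : GFlipStmt) (hm : MGauStmt) (hp : MPlaStmt) (_ : FAntStmt) : FChStmt := by
  intro E S M M' hE hPE hS hM hM' d x hx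
  unfold F at hx
  induction hx using AddSubgroup.closure_induction with
  | mem x hx =>
    obtain ⟨w, C, hw, hpw, hC, hcard, rfl⟩ := hx
    have e1 : M (alt C w) = alt (C.image al) (mul w E) := by
      rw [map_alt hg E ∅ M (fun w hw hpw => by rw [flip_empty]; exact hM w hw hpw) w hw hpw C,
        Finset.image_empty, flip_empty]
    have e2 : M' (alt C w) = alt (C.image al) (flip (S.image be) (mul w E)) :=
      map_alt hg E S M' hM' w hw hpw C
    rw [e1, e2]
    have hcard' : (C.image al).card = d := by
      rw [Finset.card_image_of_injective C al_inj, hcard]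
    rw [← hcard']
    apply change_mem hg (mul w E) (C.image al) _ (S.image be) (disj_al_be C S) _
      (hm w E hw hE) (hp w E hw hE hpw hPE)
    · rw [labels_mul]
      exact (Finset.image_subset_image hC).trans Finset.subset_union_left
    · rw [labels_mul]
      exact (Finset.image_subset_image hS).trans Finset.subset_union_right
  | zero =>
    rw [map_zero, map_zero, sub_self]
    exact AddSubgroup.zero_mem _
  | add x y _ _ ihx ihy =>
    have : M (x + y) - M' (x + y) = (M x - M' x) + (M y - M' y) := by
      rw [map_add, map_add]
      abel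
    rw [this]
    exact AddSubgroup.add_mem _ ihx ihy
  | neg x _ ihx =>
    have : M (-x) - M' (-x) = -(M x - M' x) := by
      rw [map_neg, map_neg]
      abel
    rw [this]
    exact AddSubgroup.neg_mem _ ihx

end Pool.Agent.ZOL.H24
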