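import Pool.Agent.Helper40_ZOL.Kit

/-!
# ZOL, row GFLIP: flips of Gauss words
-/

namespace Pool.Agent.ZOL.H24

open Pool.Agent.ZOL

theorem flip_pair (S : Finset ℕ) (k : Letter) :
    flip S [k, bar k] =
      [if k.1 ∈ S then (k.1, k.2.1, !k.2.2) else k,
        bar (if k.1 ∈ S then (k.1, k.2.1, !k.2.2) else k)] := by
  unfold flip bar
  by_cases h : k.1 ∈ S
  · simp only [List.map_cons, List.map_nil, h, if_true]
  · simp only [List.map_cons, List.map_nil, h, if_false]

/-- GFLIP -/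
theorem gflip : GFlipStmt := by
  intro w S hw a ha
  rw [labels_flip] at ha
  obtain ⟨k, hk⟩ := hw a ha
  refine ⟨if k.1 ∈ S then (k.1, k.2.1, !k.2.2) else k, ?_⟩
  rw [sub_flip, hk]
  exact flip_pair S k

end Pool.Agent.ZOL.H24
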