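import Pool.Agent.Helper40_ZOL.Stmts

/-!
# ZOL, row MGAU: products of Gauss words
-/

namespace Pool.Agent.ZOL.H24

open Pool.Agent.ZOL

theorem sub_append' (S : Finset ℕ) (u v : Word) : sub S (u ++ v) = sub S u ++ sub S v := by
  unfold sub
  exact List.filter_append u v

theorem sub_relab_inj (σ : ℕ → ℕ) (hσ : Function.Injective σ) (n : ℕ) (w : Word) :
    sub {σ n} (relab σ w) = relab σ (sub {n} w) := by
  unfold sub relab
  rw [List.filter_map]
  congr 1
  apply List.filter_congr
  intro l _
  simp only [Function.comp, Finset.mem_singleton, decide_eq_decide]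
  exact hσ.eq_iff

theorem sub_relab_none (σ : ℕ → ℕ) (a : ℕ) (h : ∀ n, σ n ≠ a) (w : Word) :
    sub {a} (relab σ w) = [] := by
  unfold sub relab
  rw [List.filter_map, List.map_eq_nil_iff, List.filter_eq_nil_iff]
  intro l _
  simp only [Function.comp, Finset.mem_singleton, decide_eq_true_eq]
  exact h l.1

theorem mem_labels' {a : ℕ} {w : Word} : a ∈ labels w ↔ ∃ l ∈ w, l.1 = a := by
  unfold labels
  simp only [List.mem_toFinset, List.mem_map]

theorem gauss_pair {w : Word} (h : IsGauss w) {l : Letter} (hl : l ∈ w) :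
    ∃ k : Letter, sub {l.1} w = [k, bar k] :=
  h l.1 (mem_labels'.2 ⟨l, hl, rfl⟩)

theorem relab_pair (σ : ℕ → ℕ) (k : Letter) :
    relab σ [k, bar k] = [(σ k.1, k.2), bar (σ k.1, k.2)] := rfl

/-- MGAU -/
theorem mgau : MGauStmt := by
  intro w E hw hE a ha
  obtain ⟨l, hl, hla⟩ := mem_labels'.1 ha
  unfold mul at hl ⊢
  rw [sub_append']
  rcases List.mem_append.1 hl with h1 | h1
  · unfold relab at h1
    obtain ⟨l', hl', he⟩ := List.mem_map.1 h1
    have hla' : 2 * l'.1 = a := by
      rw [← hla, ← he]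
    obtain ⟨k, hk⟩ := gauss_pair hw hl'
    refine ⟨(2 * k.1, k.2), ?_⟩
    have e1 : sub {a} (relab (fun n => 2 * n) w) = relab (fun n => 2 * n) (sub {l'.1} w) := by
      rw [← hla']
      exact sub_relab_inj (fun n => 2 * n) (fun x y hxy => by
        have : 2 * x = 2 * y := hxy
        omega) l'.1 w
    have e2 : sub {a} (relab (fun n => 2 * n + 1) E) = [] :=
      sub_relab_none _ _ (fun n => by
        show 2 * n + 1 ≠ a
        omega) E
    rw [e1, e2, hk, relab_pair, List.append_nil]
  · unfold relab at h1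
    obtain ⟨l', hl', he⟩ := List.mem_map.1 h1
    have hla' : 2 * l'.1 + 1 = a := by
      rw [← hla, ← he]
    obtain ⟨k, hk⟩ := gauss_pair hE hl'
    refine ⟨(2 * k.1 + 1, k.2), ?_⟩
    have e1 : sub {a} (relab (fun n => 2 * n + 1) E) =
        relab (fun n => 2 * n + 1) (sub {l'.1} E) := by
      rw [← hla']
      exact sub_relab_inj (fun n => 2 * n + 1) (fun x y hxy => by
        have : 2 * x + 1 = 2 * y + 1 := hxy
        omega) l'.1 E
    have e2 : sub {a} (relab (fun n => 2 * n) w) = [] :=
      sub_relab_none _ _ (fun n => by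
        show 2 * n ≠ a
        omega) w
    rw [e1, e2, hk, relab_pair, List.nil_append]

end Pool.Agent.ZOL.H24
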